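import Mathlib

/-!
# A negative answer to the tree version of Shelah's strongly compact partition relation

We show that, for every strongly compact cardinal `σ`, every infinite `μ < σ` and every regular
`κ ≥ σ` with `κ = σ` or `2 ^< κ = κ`, there is a tree that is not `2 ^< κ`-special and that does
not satisfy the partition relation `(κ + μ)^2_μ`, not even `(κ + 2)^2_μ`.

The tree is the tree of all injections of initial segments of `κ⁺` into `κ`, ordered by end
extension, and the colour of `s < t` is the number of left to right minima of `t` on the interval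
`[dom s, dom t)`.
-/

universe u

open Cardinal Ordinal Set

namespace Pool.Agent.Results.MP_12b8e0_lc.TreeNegative

/-- A tree: a partial order in which the strict predecessors of every element are well-ordered. -/
def IsTree (T : Type u) [PartialOrder T] : Prop :=
  ∀ x : T, IsWellOrder {y : T // y < x} (fun y z => y.1 < z.1)

/-- `T` is `lam`-special: there is a map `f` from `T` to a set of size `lam` with `f x ≠ f y`
whenever `x < y`. -/
def IsSpecial (T : Type u) [PartialOrder T] (lam : Cardinal.{u}) : Prop :=
  ∃ f : T → lam.out, ∀ x y : T, x < y → f x ≠ f y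

/-- The partition relation `T → (α)^2_μ`: for every colouring `c` of the two-element subsets of
`T` with `μ` colours there is a chain `C` of order type `α` such that `c` is constant on the
two-element subsets of `C`. -/
def Arrow (T : Type u) [PartialOrder T] (α : Ordinal.{u}) (μ : Cardinal.{u}) : Prop :=
  ∀ c : {s : Finset T // s.card = 2} → μ.out,
    ∃ C : Set T, Nonempty (α.ToType ≃o C) ∧
      ∀ s t : {s : Finset T // s.card = 2},
        (s.1 : Set T) ⊆ C → (t.1 : Set T) ⊆ C → c s = c t

/-- `σ` is strongly compact: it is an uncountable regular cardinal, and every `σ`-complete proper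
filter on any set extends to a `σ`-complete ultrafilter. -/
def IsStronglyCompact (σ : Cardinal.{u}) : Prop :=
  ℵ₀ < σ ∧ σ.IsRegular ∧
    ∀ (S : Type u) (F : Filter S), F.NeBot → CardinalInterFilter F σ →
      ∃ U : Ultrafilter S, (U : Filter S) ≤ F ∧ CardinalInterFilter (U : Filter S) σ

/-! ### Strongly compact cardinals are strong limits -/

lemma two_power_lt_of_stronglyCompact {σ : Cardinal.{u}} (hσ : IsStronglyCompact σ)
    {ν : Cardinal.{u}} (hν : ν < σ) : (2 : Cardinal.{u}) ^ ν < σ := by
  obtain ⟨hσ0, hreg, hU⟩ := hσ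
  by_contra hcon
  rw [not_lt] at hcon
  -- an injection from a set of size `σ` to the power set of a set of size `ν`
  have hle : #(σ.out) ≤ #(Set ν.out) := by
    rw [mk_out, mk_set, mk_out]; exact hcon
  obtain ⟨j⟩ := hle
  have hne : (Filter.cocardinal σ.out hreg).NeBot := by
    rw [Filter.neBot_iff]
    intro hbot
    have : (∅ : Set σ.out) ∈ Filter.cocardinal σ.out hreg := by
      rw [hbot]; exact Filter.mem_bot
    rw [Filter.mem_cocardinal, compl_empty, mk_univ, mk_out] at this
    exact lt_irrefl _ this
  obtain ⟨U, hUle, hUc⟩ := hU σ.out (Filter.cocardinal σ.out hreg) hne inferInstance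
  classical
  let B : ν.out → Set σ.out := fun ξ =>
    if {s : σ.out | ξ ∈ j s} ∈ U then {s | ξ ∈ j s} else {s | ξ ∈ j s}ᶜ
  have hB : ∀ ξ, B ξ ∈ (U : Filter σ.out) := by
    intro ξ
    by_cases h : {s : σ.out | ξ ∈ j s} ∈ U
    · simp only [B, h, if_true]; exact h
    · simp only [B, h, if_false]
      exact Ultrafilter.compl_mem_iff_notMem.2 h
  have hInter : ⋂₀ (Set.range B) ∈ (U : Filter σ.out) := by
    apply hUc.cardinal_sInter_mem
    · exact lt_of_le_of_lt mk_range_le (by rw [mk_out]; exact hν)
    · rintro _ ⟨ξ, rfl⟩; exact hB ξ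
  have hsub : (⋂₀ (Set.range B)).Subsingleton := by
    intro s hs t ht
    apply j.injective
    ext ξ
    have h1 := hs (B ξ) ⟨ξ, rfl⟩
    have h2 := ht (B ξ) ⟨ξ, rfl⟩
    by_cases h : {s : σ.out | ξ ∈ j s} ∈ U
    · simp only [B, h, if_true] at h1 h2
      exact ⟨fun _ => h2, fun _ => h1⟩
    · simp only [B, h, if_false] at h1 h2
      exact ⟨fun h' => absurd h' h1, fun h' => absurd h' h2⟩
  have hcompl : (⋂₀ (Set.range B))ᶜ ∈ (U : Filter σ.out) := by
    apply hUle
    apply Set.Finite.compl_mem_cocardinal
    exact hsub.finite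
  have hempty : (∅ : Set σ.out) ∈ (U : Filter σ.out) := by
    have := Filter.inter_mem hInter hcompl
    rwa [inter_compl_self] at this
  exact Ultrafilter.empty_notMem hempty

lemma powerlt_of_stronglyCompact {σ : Cardinal.{u}} (hσ : IsStronglyCompact σ) :
    (2 : Cardinal.{u}) ^< σ = σ := by
  apply le_antisymm
  · rw [powerlt_le]
    intro x hx
    exact (two_power_lt_of_stronglyCompact hσ hx).le
  · by_contra hcon
    rw [not_le] at hcon
    have h1 : (2 : Cardinal.{u}) ^ ((2 : Cardinal.{u}) ^< σ) ≤ (2 : Cardinal.{u}) ^< σ :=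
      le_powerlt _ hcon
    exact absurd (cantor _) (not_lt.2 h1)

/-! ### The tree of injections -/

section Tree

variable {W K : Type u} [LinearOrder W] [WellFoundedLT W] [LinearOrder K] [WellFoundedLT K]
  [Inhabited K]

/-- A node: an injection from the initial segment of `W` below `len` into `K` (extended by a
default value outside). -/
structure Node (W K : Type u) [LinearOrder W] [Inhabited K] where
  /-- the length -/
  len : W
  /-- the values -/
  val : W → K
  val_out : ∀ x, len ≤ x → val x = default
  inj : ∀ x y, x < len → y < len → val x = val y → x = y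

namespace Node

omit [WellFoundedLT W] [LinearOrder K] [WellFoundedLT K] in
lemma ext' {s t : Node W K} (h1 : s.len = t.len) (h2 : ∀ x < s.len, s.val x = t.val x) :
    s = t := by
  obtain ⟨l, v, ho, hi⟩ := s
  obtain ⟨l', v', ho', hi'⟩ := t
  simp only at h1 h2
  subst h1
  have : v = v' := by
    funext x
    by_cases hx : x < l
    · exact h2 x hx
    · rw [ho x (not_lt.1 hx), ho' x (not_lt.1 hx)]
  subst this
  rfl

instance : PartialOrder (Node W K) where
  le s t := s.len ≤ t.len ∧ ∀ x < s.len, s.val x = t.val x
  le_refl s := ⟨le_rfl, fun _ _ => rfl⟩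
  le_trans s t r h1 h2 := ⟨h1.1.trans h2.1, fun x hx =>
    (h1.2 x hx).trans (h2.2 x (lt_of_lt_of_le hx h1.1))⟩
  le_antisymm s t h1 h2 := ext' (le_antisymm h1.1 h2.1) h1.2

omit [WellFoundedLT W] [LinearOrder K] [WellFoundedLT K] in
lemma le_def {s t : Node W K} : s ≤ t ↔ s.len ≤ t.len ∧ ∀ x < s.len, s.val x = t.val x := Iff.rfl

omit [WellFoundedLT W] [LinearOrder K] [WellFoundedLT K] in
lemma len_lt {s t : Node W K} (h : s < t) : s.len < t.len := by
  rcases lt_or_eq_of_le h.le.1 with h1 | h1
  · exact h1
  · exact absurd (ext' h1 h.le.2) h.ne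

omit [WellFoundedLT W] [LinearOrder K] [WellFoundedLT K] in
lemma val_eq {s t : Node W K} (h : s < t) {x : W} (hx : x < s.len) : s.val x = t.val x :=
  h.le.2 x hx

omit [WellFoundedLT W] [LinearOrder K] [WellFoundedLT K] in
/-- two predecessors of a node are compared by their length -/
lemma le_of_len_le {s s' t : Node W K} (h : s < t) (h' : s' < t) (hl : s.len ≤ s'.len) :
    s ≤ s' :=
  ⟨hl, fun _ hx => (val_eq h hx).trans (val_eq h' (lt_of_lt_of_le hx hl)).symm⟩

omit [LinearOrder K] [WellFoundedLT K] in
lemma isTree : IsTree (Node W K) := by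
  intro t
  have hwf : WellFounded (fun (y z : {y : Node W K // y < t}) => y.1 < z.1) := by
    have : WellFounded (InvImage (fun a b : W => a < b)
        (fun y : {y : Node W K // y < t} => y.1.len)) := InvImage.wf _ wellFounded_lt
    exact Subrelation.wf (fun {_ _} h => len_lt h) this
  refine { toIsWellFounded := ⟨hwf⟩, toTrichotomous := ⟨?_⟩ }
  intro a b h1 h2
  rcases le_total a.1.len b.1.len with h | h
  · have := le_of_len_le a.2 b.2 h
    rcases lt_or_eq_of_le this with h3 | h3
    · exact absurd h3 h1
    · exact Subtype.ext h3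
  · have := le_of_len_le b.2 a.2 h
    rcases lt_or_eq_of_le this with h3 | h3
    · exact absurd h3 h2
    · exact Subtype.ext h3.symm

/-- the left to right minima of `t` on the interval `[len s, len t)` -/
def record (s t : Node W K) : Set W :=
  {z | s.len ≤ z ∧ z < t.len ∧ ∀ y, s.len ≤ y → y < z → t.val z < t.val y}

lemma record_finite (s t : Node W K) : (record s t).Finite := by
  have h2 : WellFoundedGT (record s t) := by
    refine ⟨?_⟩
    have : WellFounded (InvImage (· < · : K → K → Prop)
        (fun y : record s t => t.val y.1)) := InvImage.wf _ wellFounded_lt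
    refine Subrelation.wf (fun {a b} h => ?_) this
    -- h : a > b
    exact a.2.2.2 b.1 b.2.1 h
  have : Finite (record s t) := Finite.of_wellFoundedLT_wellFoundedGT _
  exact Set.toFinite _

omit [WellFoundedLT W] [WellFoundedLT K] in
lemma record_self (s : Node W K) : record s s = ∅ := by
  ext z
  simp only [record, mem_ofPred_eq, mem_empty_iff_false, iff_false, not_and]
  intro h1 h2
  exact absurd h2 (not_lt.2 h1)

omit [WellFoundedLT W] [WellFoundedLT K] in
lemma record_empty {s t : Node W K} (h : s < t) : record t s = ∅ := by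
  ext z
  simp only [record, mem_ofPred_eq, mem_empty_iff_false, iff_false, not_and]
  intro h1 h2
  exact absurd (h2.trans (len_lt h)) (not_lt.2 h1)

omit [WellFoundedLT W] [WellFoundedLT K] in
lemma record_mono {s t r : Node W K} (h : t < r) : record s t ⊆ record s r := by
  rintro z ⟨h1, h2, h3⟩
  refine ⟨h1, h2.trans (len_lt h), fun y hy hyz => ?_⟩
  rw [← val_eq h h2, ← val_eq h (hyz.trans h2)]
  exact h3 y hy hyz

/-- The main combinatorial lemma: no chain of type `K + 2` is homogeneous for the number of
left to right minima. -/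
lemma no_homogeneous {I : Type u} [LinearOrder I] [NoMaxOrder I]
    (hreg : ∀ (S : Set W) (h : S → I), #S < #K → ∃ i, ∀ y, h y ≤ i)
    (hK : ∀ k : K, #(Iic k) < #K)
    (f : I → Node W K) (hf : StrictMono f) (a b : Node W K) (hfa : ∀ i, f i < a) (hab : a < b)
    (n : ℕ) (h1 : ∀ i j, i < j → (record (f i) (f j)).ncard = n)
    (h2 : ∀ i, (record (f i) b).ncard = n) : False := by
  have hfb : ∀ i, f i < b := fun i => (hfa i).trans hab
  -- the records do not change
  have hrec : ∀ i j, i < j → record (f i) (f j) = record (f i) b := by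
    intro i j hij
    exact Set.eq_of_subset_of_ncard_le (record_mono (hfb j))
      (by rw [h1 i j hij, h2 i]) (record_finite _ _)
  -- the supremum `τ` of the lengths
  have hne : {w : W | ∀ i, (f i).len ≤ w}.Nonempty := ⟨a.len, fun i => (len_lt (hfa i)).le⟩
  obtain ⟨τ, hτ, hmin⟩ := wellFounded_lt.has_min {w : W | ∀ i, (f i).len ≤ w} hne
  have hτb : τ < b.len := by
    refine lt_of_le_of_lt ?_ (len_lt hab)
    exact not_lt.1 (hmin a.len (fun i => (len_lt (hfa i)).le))
  have hlt : ∀ i, (f i).len < τ := by
    intro i
    obtain ⟨j, hj⟩ := exists_gt i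
    exact lt_of_lt_of_le (len_lt (hf hj)) (hτ j)
  have hsup : ∀ y, y < τ → ∃ i, y < (f i).len := by
    intro y hy
    by_contra hcon
    push Not at hcon
    exact hmin y hcon hy
  -- the values below `b.val τ`
  let S : Set W := {y | y < τ ∧ b.val y ≤ b.val τ}
  have hS : #S < #K := by
    refine lt_of_le_of_lt ?_ (hK (b.val τ))
    refine mk_le_of_injective (f := fun y : S => (⟨b.val y.1, y.2.2⟩ : Iic (b.val τ))) ?_
    intro x y hxy
    have hxy' : b.val x.1 = b.val y.1 := congrArg Subtype.val hxy
    exact Subtype.ext (b.inj x.1 y.1 (x.2.1.trans hτb) (y.2.1.trans hτb) hxy')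
  choose h hh using fun y : S => hsup y.1 y.2.1
  obtain ⟨i, hi⟩ := hreg S h hS
  -- `τ` is not a record from `f i`
  have hnot : τ ∉ record (f i) b := by
    obtain ⟨j, hj⟩ := exists_gt i
    rw [← hrec i j hj]
    intro hmem
    exact absurd hmem.2.1 (not_lt.2 (hτ j))
  have : ∃ y, (f i).len ≤ y ∧ y < τ ∧ b.val y ≤ b.val τ := by
    by_contra hcon
    push Not at hcon
    exact hnot ⟨(hlt i).le, hτb, fun y hy hyz => hcon y hy hyz⟩
  obtain ⟨y, hy1, hy2, hy3⟩ := this
  have h3 := hh ⟨y, hy2, hy3⟩
  have h4 : h ⟨y, hy2, hy3⟩ ≤ i := hi _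
  have h5 : (f (h ⟨y, hy2, hy3⟩)).len ≤ (f i).len := (hf.monotone h4).1
  exact absurd (lt_of_lt_of_le h3 h5) (not_lt.2 hy1)

/-! ### The tree is not special -/

open Classical in
/-- truncation of a function to a node -/
noncomputable def trunc (v : W → K) (w : W)
    (h : ∀ x y, x < w → y < w → v x = v y → x = y) : Node W K where
  len := w
  val := fun x => if x < w then v x else default
  val_out := fun x hx => if_neg (not_lt.2 hx)
  inj := by
    intro x y hx hy hxy
    simp only [hx, hy, if_true] at hxy
    exact h x y hx hy hxy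

omit [WellFoundedLT W] [LinearOrder K] [WellFoundedLT K] in
lemma trunc_congr {v v' : W → K} {w : W} (h : ∀ x y, x < w → y < w → v x = v y → x = y)
    (h' : ∀ x y, x < w → y < w → v' x = v' y → x = y) (heq : ∀ x < w, v x = v' x) :
    trunc v w h = trunc v' w h' := by
  apply ext'
  · rfl
  · intro x hx
    have hx' : x < w := hx
    simp only [trunc, hx', if_true]
    exact heq x hx'

omit [WellFoundedLT W] [LinearOrder K] [WellFoundedLT K] in
lemma trunc_lt {v : W → K} {w w' : W} (hw : w < w')
    (h : ∀ x y, x < w → y < w → v x = v y → x = y)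
    (h' : ∀ x y, x < w' → y < w' → v x = v y → x = y) :
    trunc v w h < trunc v w' h' := by
  rw [lt_iff_le_and_ne]
  constructor
  · refine ⟨hw.le, fun x hx => ?_⟩
    have hx' : x < w := hx
    simp only [trunc, hx', hx'.trans hw, if_true]
  · intro heq
    have : w = w' := congrArg Node.len heq
    exact hw.ne this

open Classical in
omit [LinearOrder K] [WellFoundedLT K] in
/-- a non-special tree: a specialising map would give an injection from `W` to `K` -/
lemma not_special (F : Node W K → K) (hF : ∀ x y, x < y → F x ≠ F y) :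
    ∃ g : W → K, Function.Injective g := by
  let step : (x : W) → ((y : W) → y < x → K) → K := fun x ih =>
    if h : (∀ y z, y < x → z < x →
        (fun u => if hu : u < x then ih u hu else default) y =
        (fun u => if hu : u < x then ih u hu else default) z → y = z) then
      F (trunc (fun u => if hu : u < x then ih u hu else default) x h)
    else default
  let g : W → K := wellFounded_lt.fix step
  have hg : ∀ x, g x = step x (fun y _ => g y) := fun x => wellFounded_lt.fix_eq step x
  have hg' : ∀ x (h : ∀ y z, y < x → z < x → g y = g z → y = z), g x = F (trunc g x h) := by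
    intro x h
    have h' : (∀ y z, y < x → z < x →
        (fun u => if hu : u < x then g u else default) y =
        (fun u => if hu : u < x then g u else default) z → y = z) := by
      intro y z hy hz hyz
      simp only [hy, hz, dite_true] at hyz
      exact h y z hy hz hyz
    rw [hg x]
    simp only [step]
    rw [dif_pos h']
    congr 1
    apply trunc_congr
    intro y hy
    simp only [hy, dite_true]
  have hinj : ∀ x, ∀ y z, y < x → z < x → g y = g z → y = z := by
    intro x
    induction x using WellFoundedLT.induction with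
    | _ x ih =>
      have key : ∀ y z, y < x → z < x → y < z → g y ≠ g z := by
        intro y z hy hz hyz
        rw [hg' y (ih y hy), hg' z (ih z hz)]
        exact hF _ _ (trunc_lt hyz _ _)
      intro y z hy hz hyz
      rcases lt_trichotomy y z with h | h | h
      · exact absurd hyz (key y z hy hz h)
      · exact h
      · exact absurd hyz.symm (key z y hz hy h)
  refine ⟨g, fun y z hyz => ?_⟩
  have key : ∀ y z, y < z → g y ≠ g z := by
    intro y z hyz
    rw [hg' y (hinj y), hg' z (hinj z)]
    exact hF _ _ (trunc_lt hyz _ _)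
  rcases lt_trichotomy y z with h | h | h
  · exact absurd hyz (key y z h)
  · exact h
  · exact absurd hyz.symm (key z y h)

end Node

end Tree

/-! ### The main theorem -/

/-- The general form: `κ` infinite regular with `2 ^< κ = κ`. -/
theorem main (κ : Cardinal.{u}) (hκ : κ.IsRegular) (hpow : (2 : Cardinal.{u}) ^< κ = κ) :
    ∃ (T : Type u) (_ : PartialOrder T), IsTree T ∧ ¬ IsSpecial T (2 ^< κ) ∧
      ∀ (μ : Cardinal.{u}) (α : Ordinal.{u}), ℵ₀ ≤ μ → κ.ord + 2 ≤ α → ¬ Arrow T α μ := by
  have hne : Nonempty κ.ord.ToType := nonempty_ord_toType hκ.ne_zero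
  have : Inhabited κ.ord.ToType := Classical.inhabited_of_nonempty hne
  have hmax : NoMaxOrder κ.ord.ToType := Cardinal.noMaxOrder hκ.aleph0_le
  refine ⟨Node (Order.succ κ).ord.ToType κ.ord.ToType, inferInstance, Node.isTree, ?_, ?_⟩
  · -- not special
    rw [hpow]
    rintro ⟨F, hF⟩
    have heq : #(κ.out) = #(κ.ord.ToType) := by rw [mk_out, mk_ord_toType]
    obtain ⟨e⟩ := Cardinal.eq.1 heq
    obtain ⟨g, hg⟩ := Node.not_special
      (W := (Order.succ κ).ord.ToType) (K := κ.ord.ToType) (fun x => e (F x))
      (fun x y hxy h => hF x y hxy (e.injective h))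
    have hle := mk_le_of_injective hg
    rw [mk_ord_toType, mk_ord_toType] at hle
    exact absurd hle (not_le.2 (Order.lt_succ κ))
  · -- the partition relation fails
    intro μ α hμ hα harrow
    classical
    -- an injection of the natural numbers into the set of colours
    have hinf : Infinite μ.out := by
      rw [Cardinal.infinite_iff, mk_out]; exact hμ
    let ι : ℕ ↪ μ.out := Infinite.natEmbedding μ.out
    let T := Node (Order.succ κ).ord.ToType κ.ord.ToType
    let c : {s : Finset T // s.card = 2} → μ.out := fun p =>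
      ι (∑ s ∈ p.1, ∑ t ∈ p.1, (Node.record s t).ncard)
    have hc : ∀ (s t : T) (h : s < t) (hst : ({s, t} : Finset T).card = 2),
        c ⟨{s, t}, hst⟩ = ι ((Node.record s t).ncard) := by
      intro s t h hst
      simp only [c]
      congr 1
      rw [Finset.sum_pair h.ne, Finset.sum_pair h.ne, Finset.sum_pair h.ne,
        Node.record_self, Node.record_self, Node.record_empty h]
      simp
    obtain ⟨C, ⟨e⟩, hC⟩ := harrow c
    let E : Iio α ≃o C := ToType.mk.trans e
    have hE : ∀ x y : Iio α, x < y → (E x : T) < (E y : T) := by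
      intro x y hxy
      exact E.lt_iff_lt.2 hxy
    have h12 : κ.ord + 1 < κ.ord + 2 := (add_lt_add_iff_left κ.ord).2 one_lt_two
    have h01 : κ.ord < κ.ord + 1 := lt_add_one κ.ord
    have hlt2 : κ.ord + 1 < α := lt_of_lt_of_le h12 hα
    have hlt1 : κ.ord < α := h01.trans hlt2
    have hlt0 : ∀ k : κ.ord.ToType, ((ToType.toOrd k : Iio κ.ord) : Ordinal.{u}) < α := by
      intro k
      exact lt_trans (ToType.toOrd k).2 hlt1
    let f0 : κ.ord.ToType → Iio α := fun k => ⟨(ToType.toOrd k : Iio κ.ord).1, hlt0 k⟩
    have hf0 : ∀ k l, k < l → f0 k < f0 l := by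
      intro k l hkl
      have : ToType.toOrd k < ToType.toOrd l := ToType.mk.symm.lt_iff_lt.2 hkl
      exact this
    let f : κ.ord.ToType → T := fun k => E (f0 k)
    let a : T := E ⟨κ.ord, hlt1⟩
    let b : T := E ⟨κ.ord + 1, hlt2⟩
    have hf : StrictMono f := by
      intro k l hkl
      exact hE _ _ (hf0 k l hkl)
    have hfa : ∀ k, f k < a := by
      intro k
      apply hE
      exact (ToType.toOrd k).2
    have hab : a < b := by
      apply hE
      exact h01
    have hmem : ∀ x : Iio α, (E x : T) ∈ C := fun x => (E x).2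
    -- homogeneity
    have hhom : ∀ x y z w : Iio α, x < y → z < w →
        (Node.record (E x : T) (E y : T)).ncard = (Node.record (E z : T) (E w : T)).ncard := by
      intro x y z w hxy hzw
      have h1 : ({(E x : T), (E y : T)} : Finset T).card = 2 := Finset.card_pair (hE x y hxy).ne
      have h2 : ({(E z : T), (E w : T)} : Finset T).card = 2 := Finset.card_pair (hE z w hzw).ne
      have h3 := hC ⟨_, h1⟩ ⟨_, h2⟩ (by
        intro u hu
        simp only [Finset.coe_insert, Finset.coe_singleton, mem_insert_iff,
          mem_singleton_iff] at hu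
        rcases hu with rfl | rfl
        · exact hmem _
        · exact hmem _) (by
        intro u hu
        simp only [Finset.coe_insert, Finset.coe_singleton, mem_insert_iff,
          mem_singleton_iff] at hu
        rcases hu with rfl | rfl
        · exact hmem _
        · exact hmem _)
      rw [hc _ _ (hE x y hxy) h1, hc _ _ (hE z w hzw) h2] at h3
      exact ι.injective h3
    refine Node.no_homogeneous (I := κ.ord.ToType) ?_ ?_ f hf a b hfa hab
      (Node.record a b).ncard ?_ ?_
    · intro S h hS
      rw [mk_ord_toType] at hS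
      have hsup : (⨆ y : S, ((ToType.toOrd (h y) : Iio κ.ord) : Ordinal.{u})) < κ.ord := by
        apply Ordinal.iSup_lt_of_lt_cof
        · rw [hκ.cof_ord]; exact hS
        · intro y
          exact (ToType.toOrd (h y)).2
      refine ⟨ToType.mk ⟨_, hsup⟩, fun y => ?_⟩
      rw [← ToType.mk.symm_apply_le]
      exact le_ciSup (f := fun y : S => ((ToType.toOrd (h y) : Iio κ.ord) : Ordinal.{u}))
        Ordinal.bddAbove_of_small y
    · intro k
      obtain ⟨l, hl⟩ := exists_gt k
      refine lt_of_le_of_lt (mk_le_mk_of_subset (?_ : Iic k ⊆ Iio l)) ?_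
      · intro x hx
        exact lt_of_le_of_lt hx hl
      · exact mk_Iio_lt l (by rw [mk_ord_toType, type_toType])
    · intro i j hij
      exact hhom (f0 i) (f0 j) _ _ (hf0 i j hij) h01
    · intro i
      have hi : (f0 i : Iio α) < (⟨κ.ord + 1, hlt2⟩ : Iio α) :=
        show ((ToType.toOrd i : Iio κ.ord) : Ordinal.{u}) < κ.ord + 1 from
          lt_trans (ToType.toOrd i).2 h01
      exact hhom (f0 i) ⟨κ.ord + 1, hlt2⟩ _ _ hi h01

/-- **Negative answer to the tree version of Shelah's relation.** -/
theorem result (σ κ μ : Cardinal.{u}) (hσ : IsStronglyCompact σ) (hκ : κ.IsRegular)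
    (hσκ : σ ≤ κ) (hκσ : κ = σ ∨ (2 : Cardinal.{u}) ^< κ = κ) (hμ : ℵ₀ ≤ μ) (hμσ : μ < σ) :
    ∃ (T : Type u) (_ : PartialOrder T), IsTree T ∧ ¬ IsSpecial T (2 ^< κ) ∧
      ¬ Arrow T (κ.ord + μ.ord) μ ∧ ¬ Arrow T (κ.ord + 2) μ := by
  have hpow : (2 : Cardinal.{u}) ^< κ = κ := by
    rcases hκσ with rfl | h
    · exact powerlt_of_stronglyCompact hσ
    · exact h
  obtain ⟨T, hT, h1, h2, h3⟩ := main κ hκ hpow
  refine ⟨T, hT, h1, h2, h3 μ _ hμ ?_, h3 μ _ hμ le_rfl⟩
  have hω : (2 : Ordinal.{u}) ≤ μ.ord :=
    le_trans (Ordinal.natCast_lt_omega0 2).le (omega0_le_ord.2 hμ)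
  exact (add_le_add_iff_left κ.ord).2 hω

end Pool.Agent.Results.MP_12b8e0_lc.TreeNegative
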